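import Pool.Agent.W96.CL.Stm
set_option autoImplicit false

open Polynomial Filter Topology

namespace W96CL

namespace CONS237

theorem om_sq : om ^ 2 = ⟨-1 / 2, -(Real.sqrt 3 / 2)⟩ := by
  have h3 : Real.sqrt 3 * Real.sqrt 3 = 3 := Real.mul_self_sqrt (by norm_num)
  rw [sq]
  apply Complex.ext
  · simp only [om, Complex.mul_re]; nlinarith
  · simp only [om, Complex.mul_im]; ring

theorem om_cube : om ^ 3 = 1 := by
  have h3 : Real.sqrt 3 * Real.sqrt 3 = 3 := Real.mul_self_sqrt (by norm_num)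
  have : om ^ 3 = om ^ 2 * om := by ring
  rw [this, om_sq]
  apply Complex.ext
  · simp only [om, Complex.mul_re, Complex.one_re]; nlinarith
  · simp only [om, Complex.mul_im, Complex.one_im]; ring

theorem om_ne : om ≠ 0 := by
  intro h
  have := om_cube
  rw [h] at this
  norm_num at this

/-- composition with multiplication by `c` -/
noncomputable def cm (c : ℂ) (p : ℝ[X]) : ℂ[X] := (p.map (algebraMap ℝ ℂ)).comp (C c * X)

theorem eval_cm (c : ℂ) (p : ℝ[X]) (x : ℂ) : (cm c p).eval x = aeval (c * x) p := by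
  rw [cm, eval_comp, eval_mul, eval_C, eval_X, eval_map, aeval_def]

theorem first (n : ℕ) (θ : ℝ) (t Q : ℝ[X]) (hQ : P1 n θ t Q) (x : ℂ) :
    aeval x t * aeval x Q = -(aeval (om * x) (phi n θ) * aeval (om * x) Q)
      - aeval (om ^ 2 * x) (phi n θ) * aeval (om ^ 2 * x) Q := by
  have hkey : ∀ x : ℂ, aeval x Q * (-(aeval (om * x) (phi n θ) * aeval (om * x) Q)
      - aeval (om ^ 2 * x) (phi n θ) * aeval (om ^ 2 * x) Q
      + 3 * aeval x Q * aeval (om * x) Q * aeval (om ^ 2 * x) Q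
      - aeval x (phi n θ) * aeval x Q) = 0 := by
    intro x
    have k1 := hQ.kQ (om * x)
    have k2 := hQ.kQ (om ^ 2 * x)
    have v := hQ.VQ x
    have e1 : om * (om * x) = om ^ 2 * x := by ring
    have e2 : om ^ 2 * (om * x) = x := by
      have : om ^ 2 * (om * x) = om ^ 3 * x := by ring
      rw [this, om_cube, one_mul]
    have e3 : om * (om ^ 2 * x) = x := by
      have : om * (om ^ 2 * x) = om ^ 3 * x := by ring
      rw [this, om_cube, one_mul]
    have e4 : om ^ 2 * (om ^ 2 * x) = om * x := by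
      have : om ^ 2 * (om ^ 2 * x) = om ^ 3 * (om * x) := by ring
      rw [this, om_cube, one_mul]
    rw [e1, e2] at k1
    rw [e3, e4] at k2
    have t1 : aeval (om * x) t = aeval (om * x) (phi n θ) - 3 * aeval (om ^ 2 * x) Q * aeval x Q := by
      rw [← k1]; ring
    have t2 : aeval (om ^ 2 * x) t = aeval (om ^ 2 * x) (phi n θ) - 3 * aeval x Q * aeval (om * x) Q := by
      rw [← k2]; ring
    rw [t1, t2] at v
    linear_combination v / 3
  -- the polynomial in the bracket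
  set W : ℂ[X] := -(cm om (phi n θ) * cm om Q) - cm (om ^ 2) (phi n θ) * cm (om ^ 2) Q
      + 3 * cm 1 Q * cm om Q * cm (om ^ 2) Q - cm 1 (phi n θ) * cm 1 Q with hW
  have hWe : ∀ x : ℂ, W.eval x = -(aeval (om * x) (phi n θ) * aeval (om * x) Q)
      - aeval (om ^ 2 * x) (phi n θ) * aeval (om ^ 2 * x) Q
      + 3 * aeval x Q * aeval (om * x) Q * aeval (om ^ 2 * x) Q
      - aeval x (phi n θ) * aeval x Q := by
    intro x
    rw [hW]
    simp only [eval_sub, eval_add, eval_neg, eval_mul, eval_cm, one_mul, eval_ofNat]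
  have hprod : cm 1 Q * W = 0 := by
    apply Polynomial.funext
    intro x
    rw [eval_mul, hWe, eval_cm, one_mul, eval_zero]
    exact hkey x
  have hQ0 : cm 1 Q ≠ 0 := by
    intro h
    have : Q.map (algebraMap ℝ ℂ) = 0 := by
      apply Polynomial.funext
      intro x
      have h2 := congrArg (fun p => p.eval x) h
      simp only [eval_cm, one_mul, eval_zero] at h2
      rw [eval_zero, eval_map, ← aeval_def]
      exact h2
    rw [Polynomial.map_eq_zero] at this
    exact hQ.monic.ne_zero this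
  have hW0 : W = 0 := (mul_eq_zero.1 hprod).resolve_left hQ0
  have h5 := hWe x
  rw [hW0, eval_zero] at h5
  have k0 := hQ.kQ x
  have t0 : aeval x t = aeval x (phi n θ) - 3 * aeval (om * x) Q * aeval (om ^ 2 * x) Q := by
    rw [← k0]; ring
  rw [t0]
  linear_combination h5

theorem reflect_aeval (p : ℝ[X]) (N : ℕ) (h : p.natDegree ≤ N) (x : ℂ) (hx : x ≠ 0) :
    aeval x (p.reflect N) = x ^ N * aeval x⁻¹ p := by
  letI : Invertible (x⁻¹) := invertibleOfNonzero (inv_ne_zero hx)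
  have h1 := eval₂_reflect_mul_pow (algebraMap ℝ ℂ) (x⁻¹) N p h
  have h2 : ⅟(x⁻¹) = x := by simp
  rw [h2] at h1
  rw [aeval_def, aeval_def, ← h1, mul_comm, mul_assoc, ← mul_pow, inv_mul_cancel₀ hx, one_pow,
    mul_one]

theorem pal_t (n : ℕ) (θ : ℝ) (t : ℝ[X]) (ht : Rel n θ t) (x : ℂ) (hx : x ≠ 0) :
    x ^ (4 * n) * aeval x⁻¹ t = aeval x t := by
  rw [← reflect_aeval t (4 * n) ht.deg x hx]
  congr 1
  ext k
  rw [coeff_reflect]
  by_cases hk : k ≤ 4 * n
  · rw [revAt_le hk]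
    exact (ht.pal k hk).symm
  · rw [revAt_eq_self_of_lt (by omega)]

theorem pal_phi (n : ℕ) (θ : ℝ) (x : ℂ) (hx : x ≠ 0) :
    x ^ (4 * n) * aeval x⁻¹ (phi n θ) = aeval x (phi n θ) := by
  unfold phi
  simp only [map_pow, map_add, map_mul, map_one, aeval_X, aeval_C]
  have e1 : x ^ (4 * n) = (x ^ 2) ^ (2 * n) := by rw [← pow_mul]; congr 1; ring
  rw [e1, ← mul_pow]
  congr 1
  field_simp
  ring

theorem second (n : ℕ) (θ : ℝ) (t Q : ℝ[X]) (ht : Rel n θ t) (hQ : P1 n θ t Q) :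
    Q.reflect (2 * n) = -Q := by
  set R : ℝ[X] := Q.reflect (2 * n) with hR
  have hR1 : ∀ x : ℂ, x ≠ 0 → aeval x R = x ^ (2 * n) * aeval x⁻¹ Q := by
    intro x hx
    exact reflect_aeval Q (2 * n) hQ.deg.le x hx
  have hmain : ∀ x : ℂ, x ≠ 0 → aeval x (phi n θ) * (aeval x R ^ 2 - aeval x Q ^ 2) = 0 := by
    intro x hx
    have v := hQ.VQ x
    have v' := hQ.VQ x⁻¹
    have hox : om * x ≠ 0 := mul_ne_zero om_ne hx
    have hoox : om ^ 2 * x ≠ 0 := mul_ne_zero (pow_ne_zero _ om_ne) hx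
    have j1 : om⁻¹ = om ^ 2 := by
      apply inv_eq_of_mul_eq_one_right
      have : om * om ^ 2 = om ^ 3 := by ring
      rw [this, om_cube]
    have j2 : (om ^ 2)⁻¹ = om := by rw [← j1, inv_inv]
    have i1 : (om * x)⁻¹ = om ^ 2 * x⁻¹ := by rw [mul_inv, j1]
    have i2 : (om ^ 2 * x)⁻¹ = om * x⁻¹ := by rw [mul_inv, j2]
    have a1 := pal_t n θ t ht (om * x) hox
    have a2 := pal_t n θ t ht (om ^ 2 * x) hoox
    have b0 := pal_phi n θ x hx
    have b1 := pal_phi n θ (om * x) hox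
    have b2 := pal_phi n θ (om ^ 2 * x) hoox
    rw [i1] at a1 b1
    rw [i2] at a2 b2
    have hR2 := hR1 x hx
    have hpow : (om * x) ^ (4 * n) * (om ^ 2 * x) ^ (4 * n) = x ^ (4 * n) * x ^ (4 * n) := by
      rw [← mul_pow, ← mul_pow]
      congr 1
      have : om * x * (om ^ 2 * x) = om ^ 3 * (x * x) := by ring
      rw [this, om_cube, one_mul]
    have hx4 : x ^ (4 * n) = (x ^ (2 * n)) ^ 2 := by rw [← pow_mul]; congr 1; ring
    have e : (om * x) ^ (4 * n) * (om ^ 2 * x) ^ (4 * n) *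
        (aeval (om * x⁻¹) t * aeval (om ^ 2 * x⁻¹) t) =
        (om * x) ^ (4 * n) * (om ^ 2 * x) ^ (4 * n) *
        (aeval (om * x⁻¹) (phi n θ) * aeval (om ^ 2 * x⁻¹) (phi n θ) +
          3 * aeval x⁻¹ (phi n θ) * aeval x⁻¹ Q ^ 2) := by rw [v']
    have e' : aeval (om * x) t * aeval (om ^ 2 * x) t =
        aeval (om * x) (phi n θ) * aeval (om ^ 2 * x) (phi n θ) +
        3 * aeval x (phi n θ) * aeval x R ^ 2 := by
      rw [hR2, ← a1, ← a2, ← b0, ← b1, ← b2]
      have : 3 * (x ^ (4 * n) * aeval x⁻¹ (phi n θ)) * (x ^ (2 * n) * aeval x⁻¹ Q) ^ 2 =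
        (x ^ (4 * n) * (x ^ (2 * n)) ^ 2) * (3 * aeval x⁻¹ (phi n θ) * aeval x⁻¹ Q ^ 2) := by ring
      rw [this, ← hx4, ← hpow]
      linear_combination e
    rw [v] at e'
    linear_combination -e' / 3
  have hphi0 : phi n θ ≠ 0 := by
    intro h
    have : (phi n θ).eval 0 = 0 := by rw [h, eval_zero]
    simp [phi] at this
  have hpoly : phi n θ * (R ^ 2 - Q ^ 2) = 0 := by
    apply Polynomial.eq_zero_of_infinite_isRoot
    refine Set.Infinite.mono ?_ (Set.Ioi_infinite (0 : ℝ))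
    intro x hx
    have hx0 : ((x : ℝ) : ℂ) ≠ 0 := by
      have : x ≠ 0 := ne_of_gt hx
      exact_mod_cast this
    have h := hmain (x : ℂ) hx0
    show (phi n θ * (R ^ 2 - Q ^ 2)).eval x = 0
    have h2 : ((((phi n θ * (R ^ 2 - Q ^ 2)).eval x : ℝ)) : ℂ) = 0 := by
      have e : ∀ p : ℝ[X], ((p.eval x : ℝ) : ℂ) = aeval (x : ℂ) p := by
        intro p
        exact (aeval_algebraMap_apply_eq_algebraMap_eval (A := ℂ) x p).symm
      rw [e]
      simpa using h
    exact_mod_cast h2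
  have h1 : R ^ 2 - Q ^ 2 = 0 := (mul_eq_zero.1 hpoly).resolve_left hphi0
  have h2 : R = Q ∨ R = -Q := by
    have : (R - Q) * (R + Q) = 0 := by ring_nf; linear_combination h1
    rcases mul_eq_zero.1 this with h | h
    · left; exact sub_eq_zero.1 h
    · right; exact eq_neg_of_add_eq_zero_left h
  rcases h2 with h | h
  · exfalso
    have h3 := congrArg (fun p => p.coeff (2 * n)) h
    simp only [hR, coeff_reflect] at h3
    rw [revAt_le (le_refl _), Nat.sub_self, hQ.zero] at h3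
    have h4 : Q.coeff (2 * n) = 1 := by
      have := hQ.monic.coeff_natDegree
      rwa [hQ.deg] at this
    rw [h4] at h3
    norm_num at h3
  · exact h

end CONS237

theorem cl_cons : S_cons := by
  intro n θ t Q hn h0 h1 ht hQ
  have hR := CONS237.second n θ t Q ht hQ
  have h2 : ∀ x : ℂ, x ≠ 0 → x ^ (2 * n) * aeval x⁻¹ Q = -aeval x Q := by
    intro x hx
    rw [← CONS237.reflect_aeval Q (2 * n) hQ.deg.le x hx, hR, map_neg]
  have e : ∀ (x : ℝ) (p : ℝ[X]), ((p.eval x : ℝ) : ℂ) = aeval (x : ℂ) p := by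
    intro x p
    exact (aeval_algebraMap_apply_eq_algebraMap_eval (A := ℂ) x p).symm
  refine ⟨CONS237.first n θ t Q hQ, h2, ?_, ?_⟩
  · have h3 := h2 (-1) (by norm_num)
    have h4 : ((-1 : ℂ)) ^ (2 * n) = 1 := by rw [pow_mul]; norm_num
    have h5 : ((-1 : ℂ))⁻¹ = -1 := by norm_num
    rw [h4, h5, one_mul] at h3
    have h6 : aeval (-1 : ℂ) Q = 0 := by
      linear_combination h3 / 2
    have h7 := e (-1) Q
    push_cast at h7
    rw [h6] at h7
    exact_mod_cast h7
  · have h3 := h2 1 (by norm_num)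
    rw [one_pow, inv_one, one_mul] at h3
    have h6 : aeval (1 : ℂ) Q = 0 := by
      linear_combination h3 / 2
    have h7 := e 1 Q
    push_cast at h7
    rw [h6] at h7
    exact_mod_cast h7

end W96CL
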