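import Pool.Agent.W96.CL.Stm
set_option autoImplicit false

open Polynomial Filter Topology MeasureTheory

namespace W96CL

namespace LAM237

theorem aeval_phi (n : ℕ) (θ : ℝ) (x : ℂ) : aeval x (phi n θ) = psi n θ x ^ 2 := by
  unfold phi psi
  simp only [map_pow, map_add, map_mul, map_one, aeval_X, aeval_C]
  rw [← pow_mul, mul_comm n 2]
  congr 2

theorem psi_ne (n : ℕ) (θ α : ℝ) (h : 0 < Real.cos α + Real.cos θ) :
    psi n θ (Complex.exp (α * Complex.I)) ≠ 0 := by
  unfold psi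
  apply pow_ne_zero
  have e : (1 : ℂ) + 2 * (Real.cos θ : ℂ) * Complex.exp (α * Complex.I) +
      Complex.exp (α * Complex.I) ^ 2 =
      Complex.exp (α * Complex.I) * ((2 * (Real.cos α + Real.cos θ) : ℝ) : ℂ) := by
    have h1 : Complex.exp (α * Complex.I) * Complex.exp (-(α * Complex.I)) = 1 := by
      rw [← Complex.exp_add]; simp
    have h2 : (Real.cos α : ℂ) = (Complex.exp (α * Complex.I) + Complex.exp (-(α * Complex.I))) / 2 := by
      rw [Complex.ofReal_cos, Complex.cos]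
      ring_nf
    push_cast
    rw [← Complex.ofReal_cos, ← Complex.ofReal_cos, h2]
    linear_combination (-1 : ℂ) * h1
  rw [e]
  apply mul_ne_zero (Complex.exp_ne_zero _)
  have : (2 * (Real.cos α + Real.cos θ) : ℝ) ≠ 0 := by positivity
  exact_mod_cast this

/-- the value of the product of hyperbolic tangents -/
theorem tanh_prod (z0 α : ℝ) (h : 0 < Real.cosh (3 * z0 / 2) + Real.cos (3 * α / 2)) :
    -(Complex.tanh (3 * ((α * Complex.I : ℂ) - z0) / 4) *
      Complex.tanh (3 * ((α * Complex.I : ℂ) + z0) / 4)) =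
      (((Real.cosh (3 * z0 / 2) - Real.cos (3 * α / 2)) /
        (Real.cosh (3 * z0 / 2) + Real.cos (3 * α / 2)) : ℝ) : ℂ) := by
  set a : ℂ := 3 * (z0 : ℂ) / 4 with ha
  set b : ℂ := 3 * (α : ℂ) * Complex.I / 4 with hb
  have e1 : (3 * ((α * Complex.I : ℂ) - z0) / 4) = b - a := by rw [ha, hb]; ring
  have e2 : (3 * ((α * Complex.I : ℂ) + z0) / 4) = b + a := by rw [ha, hb]; ring
  have hs : Complex.sinh (b - a) * Complex.sinh (b + a) =
      -((Complex.cosh (2 * a) - Complex.cosh (2 * b)) / 2) := by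
    rw [Complex.sinh_sub, Complex.sinh_add, Complex.cosh_two_mul, Complex.cosh_two_mul]
    have h1 := Complex.cosh_sq a
    have h2 := Complex.cosh_sq b
    linear_combination (Complex.sinh b ^ 2 + 1 / 2) * h1 + (-(Complex.sinh a ^ 2) - 1 / 2) * h2
  have hc : Complex.cosh (b - a) * Complex.cosh (b + a) =
      (Complex.cosh (2 * a) + Complex.cosh (2 * b)) / 2 := by
    rw [Complex.cosh_sub, Complex.cosh_add, Complex.cosh_two_mul, Complex.cosh_two_mul]
    have h1 := Complex.cosh_sq a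
    have h2 := Complex.cosh_sq b
    linear_combination (Complex.cosh b ^ 2 - 1 / 2) * h1 + (Complex.sinh a ^ 2 + 1 / 2) * h2
  have c1 : Complex.cosh (2 * a) = ((Real.cosh (3 * z0 / 2) : ℝ) : ℂ) := by
    rw [Complex.ofReal_cosh]; congr 1; rw [ha]; push_cast; ring
  have c2 : Complex.cosh (2 * b) = ((Real.cos (3 * α / 2) : ℝ) : ℂ) := by
    rw [Complex.ofReal_cos, ← Complex.cosh_mul_I]; congr 1; rw [hb]; push_cast; ring
  rw [e1, e2, Complex.tanh_eq_sinh_div_cosh, Complex.tanh_eq_sinh_div_cosh, div_mul_div_comm, hs, hc,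
    c1, c2]
  push_cast
  have hne : ((Real.cosh (3 * z0 / 2) : ℝ) : ℂ) + ((Real.cos (3 * α / 2) : ℝ) : ℂ) ≠ 0 := by
    have := h.ne'
    exact_mod_cast this
  push_cast at hne
  field_simp

/-- the symmetrised kernel -/
theorem kc_sum (α v : ℝ) (h : 0 < Real.cos (3 * α / 2)) :
    kc ((α * Complex.I : ℂ) - v) + kc ((α * Complex.I : ℂ) + v) =
      ((3 / (2 * Real.pi) * Real.cos (3 * α / 2) * Real.cosh (3 * v / 2) /
      (Real.sinh (3 * v / 2) ^ 2 + Real.cos (3 * α / 2) ^ 2) : ℝ) : ℂ) := by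
  unfold kc
  set A : ℝ := 3 * v / 2 with hA
  set B : ℝ := 3 * α / 2 with hB
  have c1 : Complex.cosh (3 * ((α * Complex.I : ℂ) - v) / 2) =
      (Real.cosh A : ℂ) * (Real.cos B : ℂ) - (Real.sinh A : ℂ) * (Real.sin B : ℂ) * Complex.I := by
    have : (3 * ((α * Complex.I : ℂ) - v) / 2) = (B : ℂ) * Complex.I - (A : ℂ) := by
      rw [hA, hB]; push_cast; ring
    rw [this, Complex.cosh_sub, Complex.cosh_mul_I, Complex.sinh_mul_I]
    push_cast
    ring
  have c2 : Complex.cosh (3 * ((α * Complex.I : ℂ) + v) / 2) =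
      (Real.cosh A : ℂ) * (Real.cos B : ℂ) + (Real.sinh A : ℂ) * (Real.sin B : ℂ) * Complex.I := by
    have : (3 * ((α * Complex.I : ℂ) + v) / 2) = (B : ℂ) * Complex.I + (A : ℂ) := by
      rw [hA, hB]; push_cast; ring
    rw [this, Complex.cosh_add, Complex.cosh_mul_I, Complex.sinh_mul_I]
    push_cast
    ring
  rw [c1, c2]
  have hch := Real.cosh_sq A
  have hsc := Real.sin_sq_add_cos_sq B
  have hprod : ((Real.cosh A : ℂ) * (Real.cos B : ℂ) - (Real.sinh A : ℂ) * (Real.sin B : ℂ) * Complex.I) *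
      ((Real.cosh A : ℂ) * (Real.cos B : ℂ) + (Real.sinh A : ℂ) * (Real.sin B : ℂ) * Complex.I) =
      ((Real.sinh A ^ 2 + Real.cos B ^ 2 : ℝ) : ℂ) := by
    have e1 : (Real.sinh A ^ 2 + Real.cos B ^ 2 : ℝ) =
        (Real.cosh A * Real.cos B) ^ 2 + (Real.sinh A * Real.sin B) ^ 2 := by
      have e2 : Real.sin B ^ 2 = 1 - Real.cos B ^ 2 := by linarith
      rw [mul_pow, mul_pow, hch, e2]; ring
    rw [e1]
    push_cast
    linear_combination (-(Complex.sinh A * Complex.sin B) ^ 2) * Complex.I_sq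
  have hpos : (0 : ℝ) < Real.sinh A ^ 2 + Real.cos B ^ 2 := by positivity
  have hne : ((Real.sinh A ^ 2 + Real.cos B ^ 2 : ℝ) : ℂ) ≠ 0 := by
    exact_mod_cast hpos.ne'
  have hne1 : (Real.cosh A : ℂ) * (Real.cos B : ℂ) - (Real.sinh A : ℂ) * (Real.sin B : ℂ) * Complex.I ≠ 0 := by
    intro h0
    rw [h0, zero_mul] at hprod
    exact hne hprod.symm
  have hne2 : (Real.cosh A : ℂ) * (Real.cos B : ℂ) + (Real.sinh A : ℂ) * (Real.sin B : ℂ) * Complex.I ≠ 0 := by
    intro h0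
    rw [h0, mul_zero] at hprod
    exact hne hprod.symm
  have hpi : (Real.pi : ℂ) ≠ 0 := by exact_mod_cast Real.pi_ne_zero
  rw [div_add_div _ _ (mul_ne_zero (mul_ne_zero (by norm_num) hpi) hne1)
    (mul_ne_zero (mul_ne_zero (by norm_num) hpi) hne2)]
  have e3 : (4 * (Real.pi : ℂ) * ((Real.cosh A : ℂ) * (Real.cos B : ℂ) -
      (Real.sinh A : ℂ) * (Real.sin B : ℂ) * Complex.I)) *
      (4 * (Real.pi : ℂ) * ((Real.cosh A : ℂ) * (Real.cos B : ℂ) +
      (Real.sinh A : ℂ) * (Real.sin B : ℂ) * Complex.I)) =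
      16 * (Real.pi : ℂ) ^ 2 * ((Real.sinh A ^ 2 + Real.cos B ^ 2 : ℝ) : ℂ) := by
    rw [← hprod]; ring
  rw [e3]
  have e4 : ((3 / (2 * Real.pi) * Real.cos B * Real.cosh A /
      (Real.sinh A ^ 2 + Real.cos B ^ 2) : ℝ) : ℂ) =
      3 / (2 * (Real.pi : ℂ)) * (Real.cos B : ℂ) * (Real.cosh A : ℂ) /
      ((Real.sinh A ^ 2 + Real.cos B ^ 2 : ℝ) : ℂ) := by
    rw [Complex.ofReal_div]
    push_cast
    ring
  rw [e4]
  rw [div_eq_div_iff (mul_ne_zero (mul_ne_zero (by norm_num) (pow_ne_zero _ hpi)) hne) hne]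
  field_simp
  ring

end LAM237

theorem cl_lam (hst : S_strip) (hr : S_rs) (hh : S_hfac) : S_lam := by
  intro n θ t Q z0 lam hSQ hlam heq
  have hπ := Real.pi_pos
  have hθ0 := hSQ.th0
  have hθ1 := hSQ.th1
  set α : ℝ := Real.pi / 3 - θ with hα
  have hα0 : 0 < α := by rw [hα]; linarith
  have hα1 : α < Real.pi / 3 := by rw [hα]; linarith
  have hcosα : 0 < Real.cos α := Real.cos_pos_of_mem_Ioo ⟨by linarith, by linarith⟩
  have hcosθ : 0 < Real.cos θ := Real.cos_pos_of_mem_Ioo ⟨by linarith, by linarith⟩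
  have hcosB : Real.cos (3 * α / 2) = Real.sin (3 * θ / 2) := by
    rw [← Real.cos_pi_div_two_sub]; congr 1; rw [hα]; ring
  have hcosB0 : 0 < Real.cos (3 * α / 2) :=
    Real.cos_pos_of_mem_Ioo ⟨by linarith, by linarith⟩
  have hcosB1 : Real.cos (3 * α / 2) ≤ 1 := Real.cos_le_one _
  have hcosh : 1 < Real.cosh (3 * z0 / 2) := Real.one_lt_cosh.2 (by have := hSQ.z0pos; positivity)
  -- the value of sC
  have hs : sC n θ t (α * Complex.I) = (lam : ℂ) := by
    unfold sC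
    rw [heq, LAM237.aeval_phi]
    have hne := LAM237.psi_ne n θ α (by linarith)
    field_simp
  obtain ⟨h, hS, hfac, hnorm⟩ := hh n θ t Q z0 hSQ
  have him : ((α * Complex.I : ℂ)).im = α := by simp
  have hfac1 := hfac (α * Complex.I) (by rw [him, abs_of_pos hα0]; exact hα1.le)
  obtain ⟨hint, hval⟩ := hst h 2 hS (α * Complex.I) (by rw [him, abs_of_pos hα0]; exact hα1)
  -- the even function H
  set H : ℝ → ℝ := fun v => Real.log (1 + (rC n θ Q v).re ^ 2) with hH
  have hHeven : ∀ v, H (-v) = H v := by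
    intro v
    have h1 := (hr n θ t Q z0 hSQ).2.2.1 (v : ℂ) (by simp; positivity)
    show Real.log (1 + (rC n θ Q ((-v : ℝ) : ℂ)).re ^ 2) = Real.log (1 + (rC n θ Q v).re ^ 2)
    rw [Complex.ofReal_neg, h1.2, Complex.neg_re]
    ring_nf
  simp only [hnorm] at hint hval
  have hint' : Integrable (fun v : ℝ => kc ((α * Complex.I : ℂ) - v) * (H v : ℂ)) := hint
  have hval' : h (α * Complex.I) = Complex.exp (∫ v : ℝ, kc ((α * Complex.I : ℂ) - v) * (H v : ℂ)) := hval
  set F : ℝ → ℝ := fun v => 3 / (2 * Real.pi) * Real.cos (3 * α / 2) * Real.cosh (3 * v / 2) /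
      (Real.sinh (3 * v / 2) ^ 2 + Real.cos (3 * α / 2) ^ 2) * H v with hF
  have hI : ∫ v : ℝ, kc ((α * Complex.I : ℂ) - v) * (H v : ℂ) =
      ((∫ v in Set.Ioi (0 : ℝ), F v : ℝ) : ℂ) := by
    rw [← integral_add_compl (measurableSet_Ioi (a := (0 : ℝ))) hint', Set.compl_Ioi]
    have e1 : ∫ v in Set.Iic (0 : ℝ), kc ((α * Complex.I : ℂ) - v) * (H v : ℂ) =
        ∫ v in Set.Ioi (0 : ℝ), kc ((α * Complex.I : ℂ) + v) * (H v : ℂ) := by
      have h2 := integral_comp_neg_Ioi (0 : ℝ) (fun v : ℝ => kc ((α * Complex.I : ℂ) - v) * (H v : ℂ))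
      rw [neg_zero] at h2
      rw [← h2]
      refine setIntegral_congr_fun measurableSet_Ioi fun v _ => ?_
      show kc ((α * Complex.I : ℂ) - ((-v : ℝ) : ℂ)) * (H (-v) : ℂ) = _
      rw [hHeven, Complex.ofReal_neg, sub_neg_eq_add]
    have hint2 : IntegrableOn (fun v : ℝ => kc ((α * Complex.I : ℂ) + v) * (H v : ℂ)) (Set.Ioi 0) := by
      have h3 : Integrable (fun v : ℝ => kc ((α * Complex.I : ℂ) - ((-v : ℝ) : ℂ)) * (H (-v) : ℂ)) :=
        hint'.comp_neg
      refine Integrable.integrableOn ?_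
      refine h3.congr (Eventually.of_forall fun v => ?_)
      show kc ((α * Complex.I : ℂ) - ((-v : ℝ) : ℂ)) * (H (-v) : ℂ) = _
      rw [hHeven, Complex.ofReal_neg, sub_neg_eq_add]
    rw [e1, ← integral_add hint'.integrableOn hint2, ← integral_complex_ofReal]
    refine setIntegral_congr_fun measurableSet_Ioi fun v _ => ?_
    show kc ((α * Complex.I : ℂ) - v) * (H v : ℂ) + kc ((α * Complex.I : ℂ) + v) * (H v : ℂ) =
      ((F v : ℝ) : ℂ)
    rw [← add_mul, LAM237.kc_sum α v hcosB0, hF]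
    push_cast
    ring
  rw [hI, ← Complex.ofReal_exp] at hval'
  have e5 : -(Complex.tanh (3 * ((α * Complex.I : ℂ) - z0) / 4) *
      Complex.tanh (3 * ((α * Complex.I : ℂ) + z0) / 4) * h (α * Complex.I)) =
      -(Complex.tanh (3 * ((α * Complex.I : ℂ) - z0) / 4) *
      Complex.tanh (3 * ((α * Complex.I : ℂ) + z0) / 4)) * h (α * Complex.I) := by ring
  rw [hs, e5, LAM237.tanh_prod z0 α (by linarith), hval'] at hfac1
  have hlam2 : lam = (Real.cosh (3 * z0 / 2) - Real.cos (3 * α / 2)) /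
        (Real.cosh (3 * z0 / 2) + Real.cos (3 * α / 2)) *
        Real.exp (∫ v in Set.Ioi (0 : ℝ), F v) := by
    exact_mod_cast hfac1
  have hnum : 0 < Real.cosh (3 * z0 / 2) - Real.cos (3 * α / 2) := by linarith
  have hden : 0 < Real.cosh (3 * z0 / 2) + Real.cos (3 * α / 2) := by linarith
  rw [hlam2, Real.log_mul (div_pos hnum hden).ne' (Real.exp_pos _).ne', Real.log_exp,
    Real.log_div hnum.ne' hden.ne', ← hcosB, Real.log_div hden.ne' hnum.ne']
  ring

end W96CL
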