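import Pool.Agent.W96.CL.Stm
set_option autoImplicit false

open Polynomial Filter Topology MeasureTheory

namespace W96CL

namespace TBAA237

theorem kc_real (x : ℝ) : kc (x : ℂ) = ((kk x : ℝ) : ℂ) := by
  unfold kc kk
  push_cast
  rfl

theorem RR_real (θ x : ℝ) : RR θ (x : ℂ) = ((Rr θ x : ℝ) : ℂ) := by
  unfold RR Rr
  push_cast
  rfl

theorem tanh_pos {x : ℝ} (hx : 0 < x) : 0 < Real.tanh x := by
  rw [Real.tanh_eq_sinh_div_cosh]
  exact div_pos (Real.sinh_pos_iff.2 hx) (Real.cosh_pos x)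

theorem Rr_pos (θ : ℝ) {u : ℝ} (hu : 0 < u) : 0 < Rr θ u := by
  unfold Rr
  have h1 : 1 < Real.cosh (3 * u / 2) := Real.one_lt_cosh.2 (by positivity)
  have h2 := Real.cos_le_one (3 * θ / 2)
  have h3 := Real.neg_one_le_cos (3 * θ / 2)
  exact div_pos (by linarith) (by linarith)

theorem rep (F : ℂ → ℂ) (L : ℝ) (hst : S_strip) (hF : Strip F L) (G : ℝ → ℝ)
    (hG : ∀ v : ℝ, ‖F (v + Real.pi / 3 * Complex.I)‖ ^ 2 = G v) (u : ℝ) :
    F u = ((Real.exp (∫ v : ℝ, kk (u - v) * Real.log (G v)) : ℝ) : ℂ) := by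
  obtain ⟨_, h2⟩ := hst F L hF u (by simp; positivity)
  rw [h2, Complex.ofReal_exp]
  congr 1
  rw [← integral_complex_ofReal]
  refine integral_congr_ae (Eventually.of_forall fun v => ?_)
  show kc ((u : ℂ) - v) * ((Real.log (‖F (v + Real.pi / 3 * Complex.I)‖ ^ 2) : ℝ) : ℂ) =
    ((kk (u - v) * Real.log (G v) : ℝ) : ℂ)
  rw [hG, ← Complex.ofReal_sub, kc_real]
  push_cast
  rfl

theorem contDiff_re (f : ℂ → ℂ) (h : ∀ z : ℂ, |z.im| ≤ Real.pi / 3 → DifferentiableAt ℂ f z) :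
    ContDiff ℝ 1 (fun u : ℝ => (f u).re) := by
  rw [contDiff_iff_contDiffAt]
  intro u
  have hopen : IsOpen {z : ℂ | |z.im| < Real.pi / 3} :=
    isOpen_lt (continuous_abs.comp Complex.continuous_im) continuous_const
  have hd : DifferentiableOn ℂ f {z : ℂ | |z.im| < Real.pi / 3} :=
    fun z hz => (h z (le_of_lt hz)).differentiableWithinAt
  have han : AnalyticAt ℂ f (u : ℂ) :=
    hd.analyticOnNhd hopen (u : ℂ) (by simp; positivity)
  have h1 : ContDiffAt ℝ 1 f (u : ℂ) := (han.contDiffAt (n := 1)).restrict_scalars ℝ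
  have h2 : ContDiffAt ℝ 1 (fun u : ℝ => (u : ℂ)) u := Complex.ofRealCLM.contDiff.contDiffAt
  have h3 : ContDiffAt ℝ 1 (f ∘ fun u : ℝ => (u : ℂ)) u := ContDiffAt.comp u h1 h2
  exact Complex.reCLM.contDiff.contDiffAt.comp u h3

theorem deriv_re (f : ℂ → ℂ) (u : ℝ) (h : DifferentiableAt ℂ f u) :
    deriv (fun u : ℝ => (f u).re) u = (deriv f u).re :=
  (h.hasDerivAt.real_of_complex).deriv

end TBAA237

open TBAA237 in
theorem cl_tba (hst : S_strip) (hr : S_rs) (hl : S_lim) (hh : S_hfac) (hf : S_rfac) (hb : S_bound)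
    (hn : S_harn) (hq : S_quant) (hm : S_lam) : S_tba := by
  intro n θ t Q z0 lam hSQ hlam heq
  have hπ := Real.pi_pos
  have him : ∀ u : ℝ, |((u : ℂ)).im| ≤ Real.pi / 3 := fun u => by simp; positivity
  have him' : ∀ u : ℝ, |((u : ℂ)).im| < Real.pi / 3 := fun u => by simp; positivity
  obtain ⟨r1, r2, r3, r4, r5, r6, r7, r8⟩ := hr n θ t Q z0 hSQ
  obtain ⟨⟨K, hK⟩, l2, l3, l4, l5, l6, l7⟩ := hl n θ t Q z0 hSQ
  obtain ⟨b1, b2⟩ := hb n θ t Q z0 hSQ
  obtain ⟨h, hS, hfac, hnorm⟩ := hh n θ t Q z0 hSQ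
  obtain ⟨ρ, hρ, rfac, rnorm⟩ := hf n θ t Q z0 hSQ
  have hderS : ∀ u : ℝ, deriv (fun u : ℝ => (sC n θ t u).re) u = (deriv (sC n θ t) u).re :=
    fun u => deriv_re _ u (r1 u (him u)).1
  have hderR : ∀ u : ℝ, deriv (fun u : ℝ => (rC n θ Q u).re) u = (deriv (rC n θ Q) u).re :=
    fun u => deriv_re _ u (r1 u (him u)).2
  refine
    { n1 := hSQ.n1
      th0 := hSQ.th0
      th1 := hSQ.th1
      z0pos := hSQ.z0pos
      s_even := ?_
      r_odd := ?_
      s_diff := contDiff_re _ (fun z hz => (r1 z hz).1)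
      r_diff := contDiff_re _ (fun z hz => (r1 z hz).2)
      s_lim := ?_
      r_lim := ?_
      s_lt := l4
      s_ge := ?_
      s_pos := l2
      s_neg := l3
      r_pos := l5
      r_le := b2
      rep_r := ?_
      rep_s := ?_
      quant := hq n θ t Q z0 hSQ
      harn := hn n θ t Q z0 hSQ
      lam0 := hlam
      lam_eq := hm n θ t Q z0 lam hSQ hlam heq }
  · intro u
    show (sC n θ t ((-u : ℝ) : ℂ)).re = (sC n θ t u).re
    rw [Complex.ofReal_neg, (r3 u (him u)).1]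
  · intro u
    show (rC n θ Q ((-u : ℝ) : ℂ)).re = -(rC n θ Q u).re
    rw [Complex.ofReal_neg, (r3 u (him u)).2, Complex.neg_re]
  · refine ⟨K, fun u => ?_⟩
    have h1 := hK u (him u)
    rw [Complex.ofReal_re] at h1
    constructor
    · have h2 : |(sC n θ t u + 2).re| ≤ ‖sC n θ t u + 2‖ := Complex.abs_re_le_norm _
      have h3 : (sC n θ t u + 2).re = (sC n θ t u).re + 2 := by simp
      rw [h3] at h2
      exact h2.trans h1.1
    · rw [hderS]
      exact (Complex.abs_re_le_norm _).trans h1.2.1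
  · refine ⟨K, fun u hu => ?_⟩
    have h1 := hK u (him u)
    rw [Complex.ofReal_re] at h1
    have h4 := h1.2.2 hu
    constructor
    · have h2 : |(rC n θ Q u - Real.sqrt 3).re| ≤ ‖rC n θ Q u - Real.sqrt 3‖ := Complex.abs_re_le_norm _
      have h3 : (rC n θ Q u - Real.sqrt 3).re = (rC n θ Q u).re - Real.sqrt 3 := by simp
      rw [h3] at h2
      exact h2.trans h4.1
    · rw [hderR]
      exact (Complex.abs_re_le_norm _).trans h4.2
  · intro u
    have h1 := b1 u (him' u)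
    have h2 := (Complex.abs_re_le_norm (sC n θ t u)).trans h1
    rw [abs_le] at h2
    exact h2.1
  · intro u hu
    have e1 := rep ρ _ hst hρ (fun v => 1 - (sC n θ t v).re) rnorm u
    have e2 := rfac u (him u)
    have e3 : (3 * (u : ℂ) / 4) = ((3 * u / 4 : ℝ) : ℂ) := by push_cast; ring
    rw [e1, RR_real, e3, ← Complex.ofReal_tanh, ← Complex.ofReal_pow, ← Complex.ofReal_mul,
      ← Complex.ofReal_mul] at e2
    show Real.log (rC n θ Q u).re = _
    rw [e2, Complex.ofReal_re]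
    have p1 := tanh_pos (x := 3 * u / 4) (by positivity)
    have p2 := Rr_pos θ hu
    rw [Real.log_mul (mul_pos p1 (pow_pos p2 n)).ne' (Real.exp_pos _).ne', Real.log_exp,
      Real.log_mul p1.ne' (pow_pos p2 n).ne', Real.log_pow]
  · intro u hu huz
    have hz0 := hSQ.z0pos
    have e1 := rep h _ hst hS (fun v => 1 + (rC n θ Q v).re ^ 2) hnorm u
    have e2 := hfac u (him u)
    have e3 : (3 * ((u : ℂ) - z0) / 4) = ((3 * (u - z0) / 4 : ℝ) : ℂ) := by push_cast; ring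
    have e4 : (3 * ((u : ℂ) + z0) / 4) = ((3 * (u + z0) / 4 : ℝ) : ℂ) := by push_cast; ring
    rw [e1, e3, e4, ← Complex.ofReal_tanh, ← Complex.ofReal_tanh, ← Complex.ofReal_mul,
      ← Complex.ofReal_mul, ← Complex.ofReal_neg] at e2
    show Real.log |(sC n θ t u).re| = _
    rw [e2, Complex.ofReal_re, abs_neg, abs_mul, abs_mul]
    have p2 := tanh_pos (x := 3 * (u + z0) / 4) (by positivity)
    have p1 : |Real.tanh (3 * (u - z0) / 4)| ≠ 0 := by
      rw [abs_ne_zero, Real.tanh_eq_sinh_div_cosh]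
      apply div_ne_zero _ (Real.cosh_pos _).ne'
      rw [Real.sinh_ne_zero]
      intro h0
      apply huz
      linarith
    rw [abs_of_pos p2, abs_of_pos (Real.exp_pos _), Real.log_mul (mul_ne_zero p1 p2.ne')
      (Real.exp_pos _).ne', Real.log_exp, Real.log_mul p1 p2.ne']

end W96CL
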